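import Pool.Agent.H590.NL.Stm
import Pool.Graph.R_seed8.H212R2.KLS.T1

/-!
# MP_85210c_gt in all dimensions, task PI: the Prekopa-Leindler step (helper728)
-/

set_option autoImplicit false

noncomputable section

open MeasureTheory Filter Topology Set
open scoped BigOperators ENNReal

namespace H728NL.PI

open H590NL

variable {m : ℕ} {κ : Type} [Fintype κ]

omit [Fintype κ] in
lemma uu_eq (v : κ → V (m + 1)) (s : ℝ) (x : V m) (j : κ) :
    uu v s x j = v j 0 * s + ∑ i : Fin m, v j i.succ * x i := by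
  unfold uu ip
  rw [Fin.sum_univ_succ]
  simp

lemma uu_cont (v : κ → V (m + 1)) (s : ℝ) (j : κ) : Continuous (fun x : V m => uu v s x j) := by
  have h : (fun x : V m => uu v s x j) = fun x => v j 0 * s + ∑ i : Fin m, v j i.succ * x i := by
    funext x
    exact uu_eq v s x j
  rw [h]
  fun_prop

lemma GG_cont {ψ : ℝ → ℝ} (hψ : Continuous ψ) (v : κ → V (m + 1)) (s : ℝ) :
    Continuous (fun x : V m => GG ψ v s x) := by
  unfold GG
  exact continuous_finsetSum _ fun j _ => hψ.comp (uu_cont v s j)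

theorem main (h1 : S_PW) (h2 : S_JF) (h3 : S_ZD) : S_PI := by
  intro m κ _ p b C ψ ω ψ2 ν hp1 hp2 hK v hv
  obtain ⟨C', hC', hW⟩ := h1 m κ p b C ψ ω ψ2 ν hp1 hp2 hK v
  obtain ⟨hint, hZ, -, -, -⟩ := h3 m κ p b C ψ ω ψ2 ν hp1 hp2 hK v hv
  have hψ : Continuous ψ := continuous_iff_continuousAt.2 fun u => (hK.d1 u).continuousAt
  refine ⟨C', hC', fun s t ht => ?_⟩
  obtain ⟨H, hH⟩ : ∃ H : V m → ℝ, H = fun x => GG ψ v s x +
      (p - 1) * t ^ 2 * JJ v (fun j => ω (uu v s x j)) - C' * t ^ 3 := ⟨_, rfl⟩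
  have hgoal : (∫ x : V m, Real.exp (-(GG ψ v s x + (p - 1) * t ^ 2 *
      JJ v (fun j => ω (uu v s x j)) - C' * t ^ 3))) = ∫ x : V m, Real.exp (-(H x)) := by
    rw [hH]
  rw [hgoal]
  have hJm : Measurable (fun x : V m => JJ v (fun j => ω (uu v s x j))) := by
    have h4 : Measurable (fun x : V m => (fun j : κ => ω (uu v s x j))) :=
      measurable_pi_lambda _ fun j => (hK.cω.comp (uu_cont v s j)).measurable
    exact (h2 m κ v).2.comp h4
  have hHm : Measurable H := by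
    rw [hH]
    exact ((GG_cont hψ v s).measurable.add (hJm.const_mul _)).sub_const _
  have hJ0 : ∀ x : V m, 0 ≤ JJ v (fun j => ω (uu v s x j)) := fun x =>
    ((h2 m κ v).1 _ (fun j => hK.hb.le.trans (hK.bω _).1)).1
  have hHi : Integrable (fun x : V m => Real.exp (-(H x))) := by
    have h4 : Integrable (fun x : V m => Real.exp (C' * t ^ 3) * Real.exp (-(GG ψ v s x))) :=
      (hint s).const_mul _
    refine h4.mono' (Real.measurable_exp.comp hHm.neg).aestronglyMeasurable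
      (Eventually.of_forall fun x => ?_)
    rw [Real.norm_of_nonneg (Real.exp_pos _).le, ← Real.exp_add]
    apply Real.exp_le_exp.2
    have h5 : 0 ≤ (p - 1) * t ^ 2 * JJ v (fun j => ω (uu v s x j)) :=
      mul_nonneg (mul_nonneg (by linarith) (sq_nonneg t)) (hJ0 x)
    rw [hH]
    simp only
    linarith
  have hmf : ∀ r : ℝ, Measurable (fun x : V m => ENNReal.ofReal (Real.exp (-(GG ψ v r x)))) :=
    fun r => ENNReal.measurable_ofReal.comp
      (Real.measurable_exp.comp (GG_cont hψ v r).measurable.neg)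
  have hpw : ∀ a : ℝ, ENNReal.ofReal (Real.exp a) ^ (1 / 2 : ℝ) =
      ENNReal.ofReal (Real.exp (a / 2)) := by
    intro a
    rw [ENNReal.ofReal_rpow_of_nonneg (Real.exp_pos _).le (by norm_num), ← Real.exp_mul]
    congr 2
    ring
  have hPL := Pool.Agent.H212R2.KLS.PL (F := V m) volume (1 / 2) (by norm_num) (by norm_num)
    (fun x => ENNReal.ofReal (Real.exp (-(GG ψ v (s + t) x))))
    (fun x => ENNReal.ofReal (Real.exp (-(GG ψ v (s - t) x))))
    (fun x => ENNReal.ofReal (Real.exp (-(H x)))) (hmf _) (hmf _)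
    (ENNReal.measurable_ofReal.comp (Real.measurable_exp.comp hHm.neg)) (by
      intro x y
      have e1 : (1 - 1 / 2 : ℝ) = 1 / 2 := by norm_num
      simp only [e1, hpw]
      rw [← ENNReal.ofReal_mul (Real.exp_pos _).le, ← Real.exp_add]
      apply ENNReal.ofReal_le_ofReal
      apply Real.exp_le_exp.2
      have h6 := hW s t ht ((1 / 2 : ℝ) • x + (1 / 2 : ℝ) • y) ((1 / 2 : ℝ) • x - (1 / 2 : ℝ) • y)
      have e2 : ((1 / 2 : ℝ) • x + (1 / 2 : ℝ) • y) + ((1 / 2 : ℝ) • x - (1 / 2 : ℝ) • y) = x := by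
        ext i
        simp only [Pi.add_apply, Pi.sub_apply, Pi.smul_apply, smul_eq_mul]
        ring
      have e3 : ((1 / 2 : ℝ) • x + (1 / 2 : ℝ) • y) - ((1 / 2 : ℝ) • x - (1 / 2 : ℝ) • y) = y := by
        ext i
        simp only [Pi.add_apply, Pi.sub_apply, Pi.smul_apply, smul_eq_mul]
        ring
      rw [e2, e3] at h6
      rw [hH]
      simp only
      linarith)
  have hZr : ∀ r : ℝ, ∫⁻ x : V m, ENNReal.ofReal (Real.exp (-(GG ψ v r x))) =
      ENNReal.ofReal (ZZ ψ v r) := by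
    intro r
    unfold ZZ
    exact (ofReal_integral_eq_lintegral_ofReal (hint r)
      (Eventually.of_forall fun x => (Real.exp_pos _).le)).symm
  have hHr : ∫⁻ x : V m, ENNReal.ofReal (Real.exp (-(H x))) =
      ENNReal.ofReal (∫ x : V m, Real.exp (-(H x))) :=
    (ofReal_integral_eq_lintegral_ofReal hHi
      (Eventually.of_forall fun x => (Real.exp_pos _).le)).symm
  have e1 : (1 - 1 / 2 : ℝ) = 1 / 2 := by norm_num
  rw [hZr, hZr, hHr, e1] at hPL
  have ha := (hZ (s + t)).1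
  have hb := (hZ (s - t)).1
  have hI : 0 ≤ ∫ x : V m, Real.exp (-(H x)) := integral_nonneg fun x => (Real.exp_pos _).le
  rw [ENNReal.ofReal_rpow_of_nonneg ha.le (by norm_num),
    ENNReal.ofReal_rpow_of_nonneg hb.le (by norm_num),
    ← ENNReal.ofReal_mul (Real.rpow_nonneg ha.le _), ENNReal.ofReal_le_ofReal_iff hI,
    ← Real.sqrt_eq_rpow, ← Real.sqrt_eq_rpow] at hPL
  calc ZZ ψ v (s + t) * ZZ ψ v (s - t)
      = (Real.sqrt (ZZ ψ v (s + t)) * Real.sqrt (ZZ ψ v (s - t))) ^ 2 := by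
        rw [mul_pow, Real.sq_sqrt ha.le, Real.sq_sqrt hb.le]
    _ ≤ (∫ x : V m, Real.exp (-(H x))) ^ 2 :=
        pow_le_pow_left₀ (mul_nonneg (Real.sqrt_nonneg _) (Real.sqrt_nonneg _)) hPL 2

end H728NL.PI
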